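import Mathlib
import Pool.Agent.H17.TMFib

set_option autoImplicit false

namespace Pool.Agent.Results.MP_36a07b_nt.DoubleOdd

def t (n : ℕ) : ℤ := (-1) ^ (Nat.digits 2 n).sum

def h : ℕ → ℤ
  | 0 => 0
  | 1 => 1
  | (n + 2) => t (n + 2) * h (n + 1) + h n

theorem result (k : ℕ) (hk : Odd k) (h3 : 3 ≤ k) :
    h (2 ^ k - 3) ∣ h (2 * (2 ^ k - 3)) + 2 := by
  have e : h = Pool.Agent.H17.TMFib.h := by
    funext n
    induction n using Nat.twoStepInduction with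
    | zero => rfl
    | one => rfl
    | more n h1 h2 => rw [h, Pool.Agent.H17.TMFib.h, h1, h2]; rfl
  rw [e]
  obtain ⟨m, rfl⟩ : ∃ m, k = 2 * m + 3 := by
    obtain ⟨j, rfl⟩ := hk
    exact ⟨j - 1, by omega⟩
  exact Pool.Agent.H17.TMFib.Q2 m

end Pool.Agent.Results.MP_36a07b_nt.DoubleOdd
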